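import Mathlib

/-!
# The Euclidean set distance is not of negative type

MP_314109_co, Q1: two families of ten distinct subsets of a five element set for which the
inequality fails; the left-hand side minus the right-hand side is `10 (1 + √13 - 2 √5) > 0`.
-/

namespace Pool.Agent.Results.MP_314109_co.NotNegativeType

/-- The distance `d(A,B) = √(|A \ B|² + |B \ A|²)`. -/
noncomputable def d {X : Type} [DecidableEq X] (A B : Finset X) : ℝ :=
  Real.sqrt (((A \ B).card : ℝ) ^ 2 + ((B \ A).card : ℝ) ^ 2)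

/-- Sum of the distances over the unordered pairs of members of a family. -/
noncomputable def innerSum {X : Type} [DecidableEq X] {m : ℕ} (A : Fin m → Finset X) : ℝ :=
  ∑ p ∈ (Finset.univ : Finset (Fin m × Fin m)).filter (fun p => p.1 < p.2), d (A p.1) (A p.2)

/-- Sum of the distances between the members of two families. -/
noncomputable def crossSum {X : Type} [DecidableEq X] {m : ℕ} (A B : Fin m → Finset X) : ℝ :=
  ∑ i, ∑ j, d (A i) (B j)

/-- the squared distance -/
def sq (A B : Finset (Fin 5)) : ℕ := (A \ B).card ^ 2 + (B \ A).card ^ 2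

theorem d_eq (A B : Finset (Fin 5)) : d A B = Real.sqrt (sq A B : ℝ) := by
  unfold d sq
  push_cast
  rfl

/-- first family -/
def famA : Fin 10 → Finset (Fin 5) :=
  ![{0, 2}, {1, 3}, {2, 3}, {0, 2, 3}, {1, 2, 3}, {0, 4}, {1, 4}, {0, 1, 4}, {0, 2, 4}, {1, 3, 4}]

/-- second family -/
def famB : Fin 10 → Finset (Fin 5) :=
  ![{0, 1}, {1, 2}, {0, 1, 2}, {0, 3}, {0, 1, 3}, {2, 4}, {1, 2, 4}, {3, 4}, {0, 3, 4}, {2, 3, 4}]

theorem sum_sqrt {ι : Type} [DecidableEq ι] (P : Finset ι) (s : ι → ℕ) (K : Finset ℕ)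
    (h : ∀ p ∈ P, s p ∈ K) :
    ∑ p ∈ P, Real.sqrt (s p : ℝ) =
      ∑ k ∈ K, ((P.filter (fun p => s p = k)).card : ℝ) * Real.sqrt (k : ℝ) := by
  rw [← Finset.sum_fiberwise_of_maps_to h]
  refine Finset.sum_congr rfl fun k _ => ?_
  rw [Finset.sum_congr rfl (g := fun _ => Real.sqrt (k : ℝ))]
  · rw [Finset.sum_const, nsmul_eq_mul]
  · intro p hp
    rw [(Finset.mem_filter.mp hp).2]

/-- the possible squared distances -/
def K : Finset ℕ := {1, 2, 5, 8, 13}

/-- the pairs -/
def P : Finset (Fin 10 × Fin 10) := Finset.univ.filter (fun p => p.1 < p.2)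

theorem cA : (∀ p ∈ P, sq (famA p.1) (famA p.2) ∈ K) ∧
    (P.filter (fun p => sq (famA p.1) (famA p.2) = 1)).card = 10 ∧
    (P.filter (fun p => sq (famA p.1) (famA p.2) = 2)).card = 10 ∧
    (P.filter (fun p => sq (famA p.1) (famA p.2) = 5)).card = 10 ∧
    (P.filter (fun p => sq (famA p.1) (famA p.2) = 8)).card = 10 ∧
    (P.filter (fun p => sq (famA p.1) (famA p.2) = 13)).card = 5 := by
  decide +kernel

theorem cB : (∀ p ∈ P, sq (famB p.1) (famB p.2) ∈ K) ∧
    (P.filter (fun p => sq (famB p.1) (famB p.2) = 1)).card = 10 ∧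
    (P.filter (fun p => sq (famB p.1) (famB p.2) = 2)).card = 10 ∧
    (P.filter (fun p => sq (famB p.1) (famB p.2) = 5)).card = 10 ∧
    (P.filter (fun p => sq (famB p.1) (famB p.2) = 8)).card = 10 ∧
    (P.filter (fun p => sq (famB p.1) (famB p.2) = 13)).card = 5 := by
  decide +kernel

theorem cAB :
    (∀ p ∈ (Finset.univ : Finset (Fin 10 × Fin 10)), sq (famA p.1) (famB p.2) ∈ K) ∧
    ((Finset.univ : Finset (Fin 10 × Fin 10)).filter
      (fun p => sq (famA p.1) (famB p.2) = 1)).card = 10 ∧
    ((Finset.univ : Finset (Fin 10 × Fin 10)).filter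
      (fun p => sq (famA p.1) (famB p.2) = 2)).card = 40 ∧
    ((Finset.univ : Finset (Fin 10 × Fin 10)).filter
      (fun p => sq (famA p.1) (famB p.2) = 5)).card = 40 ∧
    ((Finset.univ : Finset (Fin 10 × Fin 10)).filter
      (fun p => sq (famA p.1) (famB p.2) = 8)).card = 10 ∧
    ((Finset.univ : Finset (Fin 10 × Fin 10)).filter
      (fun p => sq (famA p.1) (famB p.2) = 13)).card = 0 := by
  decide +kernel

theorem innerA : innerSum famA = 10 + 10 * √2 + 10 * √5 + 10 * √8 + 5 * √13 := by
  have h : innerSum famA = ∑ p ∈ P, Real.sqrt ((sq (famA p.1) (famA p.2) : ℕ) : ℝ) := by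
    unfold innerSum P
    exact Finset.sum_congr rfl fun p _ => d_eq _ _
  rw [h, sum_sqrt P (fun p => sq (famA p.1) (famA p.2)) K cA.1]
  obtain ⟨-, h1, h2, h3, h4, h5⟩ := cA
  simp only [K]
  rw [Finset.sum_insert (by decide), Finset.sum_insert (by decide), Finset.sum_insert (by decide),
    Finset.sum_insert (by decide), Finset.sum_singleton, h1, h2, h3, h4, h5]
  push_cast
  rw [Real.sqrt_one]
  ring

theorem innerB : innerSum famB = 10 + 10 * √2 + 10 * √5 + 10 * √8 + 5 * √13 := by
  have h : innerSum famB = ∑ p ∈ P, Real.sqrt ((sq (famB p.1) (famB p.2) : ℕ) : ℝ) := by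
    unfold innerSum P
    exact Finset.sum_congr rfl fun p _ => d_eq _ _
  rw [h, sum_sqrt P (fun p => sq (famB p.1) (famB p.2)) K cB.1]
  obtain ⟨-, h1, h2, h3, h4, h5⟩ := cB
  simp only [K]
  rw [Finset.sum_insert (by decide), Finset.sum_insert (by decide), Finset.sum_insert (by decide),
    Finset.sum_insert (by decide), Finset.sum_singleton, h1, h2, h3, h4, h5]
  push_cast
  rw [Real.sqrt_one]
  ring

theorem crossAB : crossSum famA famB = 10 + 40 * √2 + 40 * √5 + 10 * √8 := by
  have h : crossSum famA famB =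
      ∑ p ∈ (Finset.univ : Finset (Fin 10 × Fin 10)),
        Real.sqrt ((sq (famA p.1) (famB p.2) : ℕ) : ℝ) := by
    unfold crossSum
    rw [← Finset.univ_product_univ, Finset.sum_product]
    exact Finset.sum_congr rfl fun i _ => Finset.sum_congr rfl fun j _ => d_eq _ _
  rw [h, sum_sqrt (Finset.univ : Finset (Fin 10 × Fin 10)) (fun p => sq (famA p.1) (famB p.2)) K cAB.1]
  obtain ⟨-, h1, h2, h3, h4, h5⟩ := cAB
  simp only [K]
  rw [Finset.sum_insert (by decide), Finset.sum_insert (by decide), Finset.sum_insert (by decide),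
    Finset.sum_insert (by decide), Finset.sum_singleton, h1, h2, h3, h4, h5]
  push_cast
  rw [Real.sqrt_one]
  ring

theorem injA : Function.Injective famA := by decide +kernel

theorem injB : Function.Injective famB := by decide +kernel

/-- **Main theorem.**  On a five element ground set there are two families of ten distinct
subsets each which violate the inequality of Q1. -/
theorem result :
    ∃ (m : ℕ) (A B : Fin m → Finset (Fin 5)), Function.Injective A ∧ Function.Injective B ∧
      crossSum A B < innerSum A + innerSum B := by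
  refine ⟨10, famA, famB, injA, injB, ?_⟩
  rw [innerA, innerB, crossAB]
  have h8 : √(8 : ℝ) = 2 * √2 := by
    rw [show (8 : ℝ) = 2 ^ 2 * 2 by norm_num, Real.sqrt_mul (by norm_num),
      Real.sqrt_sq (by norm_num)]
  have h13 : (3.6 : ℝ) < √13 := by
    rw [Real.lt_sqrt (by norm_num)]
    norm_num
  have h5 : √(5 : ℝ) < 2.24 := by
    rw [Real.sqrt_lt' (by norm_num)]
    norm_num
  rw [h8]
  linarith

end Pool.Agent.Results.MP_314109_co.NotNegativeType
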